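import Mathlib
import Pool.Agent.X52.K4Ind
import Pool.Agent.X52.K4Graph

/-!
# The largest complete class of matroids avoiding `M(K_4)`

A class of matroids is complete if it is closed under isomorphism, restriction, contraction,
duality, direct sum, truncation and induction by directed graphs.  We show that the class `𝒦` of
all matroids with no minor isomorphic to `M(K_4)` is complete; hence it is the largest complete
class containing no copy of `M(K_4)`.
-/

namespace Pool.Agent.Results.MP_c5be19_co.LargestComplete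

open Set
open scoped Matroid

universe u v

/-! ### Definitions -/

/-- `M` and `N` are isomorphic: a bijection of the ground sets carries independent sets to
independent sets in both directions. -/
def Iso {α : Type u} {β : Type v} (M : Matroid α) (N : Matroid β) : Prop :=
  ∃ e : M.E ≃ N.E, ∀ I : Set M.E,
    M.Indep (Subtype.val '' I) ↔ N.Indep (Subtype.val '' (e '' I))

/-- The edges of the complete graph on `Fin 4`. -/
abbrev EdgeK4 : Type := {e : Sym2 (Fin 4) // ¬ e.IsDiag}

/-- `M` is a copy of `M(K_4)`: its elements can be labelled bijectively by the edges of `K_4` so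
that the independent sets are exactly the edge sets of forests. -/
def IsMK4 {α : Type u} (M : Matroid α) : Prop :=
  ∃ φ : EdgeK4 ≃ M.E, ∀ I : Set EdgeK4,
    M.Indep ((fun e => (φ e : α)) '' I) ↔
      (SimpleGraph.fromEdgeSet ((fun e : EdgeK4 => e.1) '' I)).IsAcyclic

/-- `X` can be joined, by pairwise vertex-disjoint directed paths of the digraph `Γ` (length zero
allowed), bijectively onto `Y`: the path starting at `x` is `p x 0, p x 1, …, p x (n x)`. -/
def Linked {T : Type u} (Γ : T → T → Prop) (X Y : Set T) : Prop :=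
  ∃ (n : T → ℕ) (p : T → ℕ → T),
    (∀ x ∈ X, p x 0 = x) ∧
    (∀ x ∈ X, ∀ i < n x, Γ (p x i) (p x (i + 1))) ∧
    (∀ x ∈ X, ∀ x' ∈ X, ∀ i ≤ n x, ∀ j ≤ n x', p x i = p x' j → x = x' ∧ i = j) ∧
    Y = {y | ∃ x ∈ X, y = p x (n x)}

/-- A complete class of (finite) matroids. -/
structure IsComplete (C : ∀ α : Type u, Matroid α → Prop) : Prop where
  finite : ∀ (α : Type u) (M : Matroid α), C α M → M.Finite
  iso : ∀ (α β : Type u) (M : Matroid α) (N : Matroid β), C α M → Iso M N → C β N
  restriction : ∀ (α : Type u) (M : Matroid α) (R : Set α), R ⊆ M.E → C α M → C α (M ↾ R)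
  contraction : ∀ (α : Type u) (M : Matroid α) (X : Set α), X ⊆ M.E → C α M → C α (M ／ X)
  dual : ∀ (α : Type u) (M : Matroid α), C α M → C α M✶
  directSum : ∀ (α β : Type u) (M : Matroid α) (N : Matroid β), C α M → C β N →
    C (α ⊕ β) (M.sum N)
  truncation : ∀ (α : Type u) (M N : Matroid α) (k : ℕ), C α M → N.E = M.E →
    (∀ I, N.Indep I ↔ M.Indep I ∧ I.encard ≤ k) → C α N
  induction : ∀ (T : Type u) (_ : Finite T) (Γ : T → T → Prop) (M₀ N : Matroid T), C T M₀ →
    (∀ X, N.Indep X ↔ X ⊆ N.E ∧ ∃ Y, M₀.Indep Y ∧ Linked Γ X Y) → C T N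

/-- The class `𝒦` of finite matroids with no minor isomorphic to `M(K_4)`. -/
def NoMK4Minor (α : Type u) (M : Matroid α) : Prop :=
  M.Finite ∧ ∀ N : Matroid α, N ≤m M → ¬ IsMK4 N

/-- `K` is the largest complete class which contains no copy of `M(K_4)`. -/
def IsLargestCompleteAvoidingMK4 (K : ∀ α : Type u, Matroid α → Prop) : Prop :=
  (IsComplete K ∧ ∀ (α : Type u) (M : Matroid α), K α M → ¬ IsMK4 M) ∧
  ∀ C : ∀ α : Type u, Matroid α → Prop,
    IsComplete C → (∀ (α : Type u) (M : Matroid α), C α M → ¬ IsMK4 M) →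
      ∀ (α : Type u) (M : Matroid α), C α M → K α M

/-! ### Linkings -/

open Pool.Agent.X52.K4Rank Pool.Agent.X52.K4Ops Pool.Agent.X52.K4Ind

theorem linking_forward {T : Type u} {Γ : T → T → Prop} {X Y : Set T} (h : Linked Γ X Y) :
    ∃ s : T → T, (∀ v, v ∉ Y → (s v = v ∨ Γ v (s v)) ∧ s v ∉ X) ∧
      ∀ v v', v ∉ Y → v' ∉ Y → s v = s v' → v = v' := by
  classical
  obtain ⟨n, p, h0, h1, h2, rfl⟩ := h
  let s : T → T := fun v =>
    if hv : ∃ y, ∃ x ∈ X, ∃ i, i < n x ∧ v = p x i ∧ y = p x (i + 1) then hv.choose else v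
  have hs : ∀ x ∈ X, ∀ i, i < n x → s (p x i) = p x (i + 1) := by
    intro x hx i hi
    have hv : ∃ y, ∃ x' ∈ X, ∃ i', i' < n x' ∧ p x i = p x' i' ∧ y = p x' (i' + 1) :=
      ⟨_, x, hx, i, hi, rfl, rfl⟩
    have e1 : s (p x i) = hv.choose := by
      simp only [s]; rw [dif_pos hv]
    obtain ⟨x', hx', i', hi', he, he2⟩ := hv.choose_spec
    obtain ⟨g1, g2⟩ := h2 x hx x' hx' i hi.le i' hi'.le he
    rw [e1, he2, g1, g2]
  have hs' : ∀ v, (¬ ∃ x ∈ X, ∃ i, i < n x ∧ v = p x i) → s v = v := by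
    intro v hv
    simp only [s]; rw [dif_neg]
    rintro ⟨y, x, hx, i, hi, he, _⟩
    exact hv ⟨x, hx, i, hi, he⟩
  refine ⟨s, ?_, ?_⟩
  · intro v hvY
    by_cases hv : ∃ x ∈ X, ∃ i, i < n x ∧ v = p x i
    · obtain ⟨x, hx, i, hi, rfl⟩ := hv
      rw [hs x hx i hi]
      refine ⟨Or.inr (h1 x hx i hi), fun hX => ?_⟩
      have := h2 x hx _ hX (i + 1) hi 0 (Nat.zero_le _) (by rw [h0 _ hX])
      omega
    · rw [hs' v hv]
      refine ⟨Or.inl rfl, fun hX => ?_⟩
      by_cases hn : n v = 0
      · exact hvY ⟨v, hX, by rw [hn, h0 v hX]⟩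
      · exact hv ⟨v, hX, 0, by omega, (h0 v hX).symm⟩
  · intro v v' hvY hvY' he
    by_cases hv : ∃ x ∈ X, ∃ i, i < n x ∧ v = p x i
    · obtain ⟨x, hx, i, hi, rfl⟩ := hv
      rw [hs x hx i hi] at he
      by_cases hv' : ∃ x ∈ X, ∃ i, i < n x ∧ v' = p x i
      · obtain ⟨x', hx', i', hi', rfl⟩ := hv'
        rw [hs x' hx' i' hi'] at he
        obtain ⟨g1, g2⟩ := h2 x hx x' hx' (i + 1) hi (i' + 1) hi' he
        have : i = i' := by omega
        rw [g1, this]
      · rw [hs' v' hv'] at he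
        exfalso
        by_cases hlast : i + 1 = n x
        · exact hvY' ⟨x, hx, by rw [← hlast, he]⟩
        · exact hv' ⟨x, hx, i + 1, by omega, he.symm⟩
    · rw [hs' v hv] at he
      by_cases hv' : ∃ x ∈ X, ∃ i, i < n x ∧ v' = p x i
      · obtain ⟨x', hx', i', hi', rfl⟩ := hv'
        rw [hs x' hx' i' hi'] at he
        exfalso
        by_cases hlast : i' + 1 = n x'
        · exact hvY ⟨x', hx', by rw [← hlast, he]⟩
        · exact hv ⟨x', hx', i' + 1, by omega, he⟩
      · rw [hs' v' hv'] at he; exact he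

theorem linking_backward {T : Type u} [Finite T] {Γ : T → T → Prop} {X W : Set T} (s : T → T)
    (hs1 : ∀ v ∈ W, s v = v ∨ Γ v (s v)) (hs2 : ∀ v ∈ W, s v ∉ X)
    (hs3 : Set.InjOn s W) : ∃ Y, Disjoint Y W ∧ Linked Γ X Y := by
  classical
  -- disjointness of orbits
  have key : ∀ i j : ℕ, ∀ x ∈ X, ∀ x' ∈ X, (∀ a < i, s^[a] x ∈ W) → (∀ a < j, s^[a] x' ∈ W) →
      s^[i] x = s^[j] x' → x = x' ∧ i = j := by
    intro i
    induction i with
    | zero =>
      intro j x hx x' hx' _ hj he
      cases j with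
      | zero => exact ⟨he, rfl⟩
      | succ j =>
        exfalso
        rw [Function.iterate_succ_apply'] at he
        exact hs2 _ (hj j (Nat.lt_succ_self j)) (he ▸ hx)
    | succ i ih =>
      intro j x hx x' hx' hi hj he
      cases j with
      | zero =>
        exfalso
        rw [Function.iterate_succ_apply'] at he
        exact hs2 _ (hi i (Nat.lt_succ_self i)) (he ▸ hx')
      | succ j =>
        rw [Function.iterate_succ_apply', Function.iterate_succ_apply'] at he
        have := hs3 (hi i (Nat.lt_succ_self i)) (hj j (Nat.lt_succ_self j)) he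
        obtain ⟨g1, g2⟩ := ih j x hx x' hx' (fun a ha => hi a (Nat.lt_succ_of_lt ha))
          (fun a ha => hj a (Nat.lt_succ_of_lt ha)) this
        exact ⟨g1, by rw [g2]⟩
  -- each orbit leaves `W`
  have hex : ∀ x ∈ X, ∃ i, s^[i] x ∉ W := by
    intro x hx
    by_contra hcon
    push Not at hcon
    have hinj : Function.Injective (fun i : ℕ => s^[i] x) := by
      intro i j h
      exact (key i j x hx x hx (fun a _ => hcon a) (fun a _ => hcon a) h).2
    exact not_injective_infinite_finite _ hinj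
  let n : T → ℕ := fun x => if hx : x ∈ X then Nat.find (hex x hx) else 0
  have hn1 : ∀ x ∈ X, s^[n x] x ∉ W := by
    intro x hx
    simp only [n, dif_pos hx]
    exact Nat.find_spec (hex x hx)
  have hn2 : ∀ x ∈ X, ∀ a < n x, s^[a] x ∈ W := by
    intro x hx a ha
    simp only [n, dif_pos hx] at ha
    by_contra h
    exact Nat.find_min (hex x hx) ha h
  refine ⟨{y | ∃ x ∈ X, y = s^[n x] x}, ?_, n, fun x i => s^[i] x, ?_, ?_, ?_, rfl⟩
  · rw [Set.disjoint_left]
    rintro y ⟨x, hx, rfl⟩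
    exact hn1 x hx
  · intro x _; rfl
  · intro x hx i hi
    have hW := hn2 x hx i hi
    show Γ (s^[i] x) (s^[i + 1] x)
    rw [Function.iterate_succ_apply']
    rcases hs1 _ hW with h | h
    · exfalso
      -- `s` fixes `s^[i] x`: impossible
      have h2 : s^[i + 1] x = s^[i] x := by rw [Function.iterate_succ_apply', h]
      have := (key (i + 1) i x hx x hx (fun a ha => hn2 x hx a (by omega))
        (fun a ha => hn2 x hx a (by omega)) h2).2
      omega
    · exact h
  · intro x hx x' hx' i hi j hj h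
    exact key i j x hx x' hx' (fun a ha => hn2 x hx a (by omega))
      (fun a ha => hn2 x' hx' a (by omega)) h

/-- closure under induction, in terms of ranks -/
theorem K4M_induction {T : Type u} [Finite T] (Γ : T → T → Prop) (M₀ N : Matroid T)
    (hN : ∀ X, N.Indep X ↔ X ⊆ N.E ∧ ∃ Y, M₀.Indep Y ∧ Linked Γ X Y) (h : K4M N) : K4M M₀ := by
  classical
  have fin : ∀ M : Matroid T, M.Finite := fun M => ⟨Set.toFinite _⟩
  set M0' : Matroid T := M₀ ↾ Set.univ with hM0'
  have hE0 : M0'.E = Set.univ := rfl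
  set M1 : Matroid T := M0'✶ with hM1
  have hE1 : M1.E = Set.univ := rfl
  obtain ⟨N1, hN1E, hN1, hK⟩ := exists_bip M1 hE1 (fun t v => t = v ∨ Γ v t)
  have f0 := fin M₀
  have f0' := fin M0'
  have f1 := fin M1
  have fN1 := fin N1
  have fN1' := fin N1✶
  have fr := fin (N1✶ ↾ N.E)
  -- bases of `N1`
  have hrank : ∀ I, N1.Indep I → ∀ B, M1.IsBase B → I.ncard ≤ B.ncard := by
    intro I hI B hB
    obtain ⟨μ, _, h2, h3⟩ := (hN1 I).1 hI
    rw [← Set.InjOn.ncard_image h2]
    obtain ⟨B', hB', hsub⟩ := h3.exists_isBase_superset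
    rw [← hB'.ncard_eq_ncard_of_isBase hB]
    exact Set.ncard_le_ncard hsub (Set.toFinite _)
  have hM1N1 : ∀ I, M1.Indep I → N1.Indep I := by
    intro I hI
    rw [hN1]
    exact ⟨id, fun t _ => Or.inl rfl, Function.injective_id.injOn, by rw [Set.image_id]; exact hI⟩
  have hbase : ∀ I, N1.Indep I → ∀ B, M1.IsBase B → B.ncard ≤ I.ncard → N1.IsBase I := by
    intro I hI B hB hle
    obtain ⟨J, hJ, hsub⟩ := hI.exists_isBase_superset
    have h1 := hrank J hJ.indep B hB
    have : I = J := Set.eq_of_subset_of_ncard_le hsub (by omega) (Set.toFinite _)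
    rw [this]; exact hJ
  have key : N = N1✶ ↾ N.E := by
    refine Matroid.ext_indep (show N.E = (N1✶ ↾ N.E).E from rfl) ?_
    intro X hX
    rw [Matroid.restrict_indep_iff, hN]
    refine ⟨fun h => ⟨?_, h.1⟩, fun h => ⟨h.2, ?_⟩⟩
    · obtain ⟨_, Y, hY, hL⟩ := h
      obtain ⟨s, hs1, hs2⟩ := linking_forward hL
      have hY' : M0'.Indep Y := by
        rw [hM0', Matroid.restrict_indep_iff]; exact ⟨hY, Set.subset_univ _⟩
      obtain ⟨B, hB, hYB⟩ := hY'.exists_isBase_superset
      have hW : M1.IsBase (Set.univ \ B) := by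
        have := hB.compl_isBase_dual
        rwa [hE0] at this
      have hWY : ∀ v ∈ Set.univ \ B, v ∉ Y := fun v hv h => hv.2 (hYB h)
      have hinj : Set.InjOn s (Set.univ \ B) := fun v hv v' hv' h => hs2 v v' (hWY v hv) (hWY v' hv') h
      rw [Matroid.dual_indep_iff_exists']
      refine ⟨by rw [hN1E]; exact Set.subset_univ _, s '' (Set.univ \ B), ?_, ?_⟩
      · apply hbase _ _ _ hW
        · rw [Set.InjOn.ncard_image hinj]
        · rw [hN1]
          have hch : ∀ t ∈ s '' (Set.univ \ B), ∃ v, v ∈ Set.univ \ B ∧ s v = t := fun t ht => ht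
          choose! μ hμ1 hμ2 using hch
          refine ⟨μ, fun t ht => ?_, fun t ht t' ht' he => ?_, ?_⟩
          · have := (hs1 _ (hWY _ (hμ1 t ht))).1
            rw [hμ2 t ht] at this
            exact this
          · rw [← hμ2 t ht, ← hμ2 t' ht', he]
          · apply hW.indep.subset
            rintro v ⟨t, ht, rfl⟩
            exact hμ1 t ht
      · rw [Set.disjoint_left]
        rintro x hx ⟨v, hv, rfl⟩
        exact (hs1 v (hWY v hv)).2 hx
    · obtain ⟨h1, _⟩ := h
      rw [Matroid.dual_indep_iff_exists'] at h1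
      obtain ⟨_, I, hI, hdis⟩ := h1
      obtain ⟨μ, g1, g2, g3⟩ := (hN1 I).1 hI.indep
      -- `μ '' I` is a base of `M1`
      obtain ⟨B, hB, hsub⟩ := g3.exists_isBase_superset
      have hBI : μ '' I = B := by
        apply Set.eq_of_subset_of_ncard_le hsub _ (Set.toFinite _)
        rw [Set.InjOn.ncard_image g2]
        have hB' := hM1N1 B hB.indep
        obtain ⟨J, hJ, hsub2⟩ := hB'.exists_isBase_superset
        rw [hI.ncard_eq_ncard_of_isBase hJ]
        exact Set.ncard_le_ncard hsub2 (Set.toFinite _)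
      have hch : ∀ v ∈ μ '' I, ∃ t, t ∈ I ∧ μ t = v := fun v hv => hv
      have hne : Nonempty T ∨ IsEmpty T := (isEmpty_or_nonempty T).symm
      rcases hne with hne | hne
      · choose! s hs1 hs2 using hch
        obtain ⟨Y, hYd, hL⟩ := linking_backward (Γ := Γ) (X := X) (W := μ '' I) s
          (fun v hv => by
            have := g1 (s v) (hs1 v hv)
            rw [hs2 v hv] at this
            exact this)
          (fun v hv hX' => Set.disjoint_left.1 hdis hX' (hs1 v hv))
          (fun v hv v' hv' he => by rw [← hs2 v hv, ← hs2 v' hv', he])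
        refine ⟨Y, ?_, hL⟩
        have hb : M0'.IsBase (Set.univ \ B) := by
          have := hB.compl_isBase_of_dual
          rwa [hE0] at this
        have h2 : M0'.Indep Y := by
          apply hb.indep.subset
          intro y hy
          refine ⟨Set.mem_univ _, ?_⟩
          rw [← hBI]
          exact Set.disjoint_left.1 hYd hy
        rw [hM0', Matroid.restrict_indep_iff] at h2
        exact h2.1
      · refine ⟨∅, M₀.empty_indep, fun _ => 0, fun x _ => x, ?_, ?_, ?_, ?_⟩
        · intro x; exact hne.elim x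
        · intro x; exact hne.elim x
        · intro x; exact hne.elim x
        · ext y; exact hne.elim y
  rw [key] at h
  have h1 : K4M N1✶ := K4M_restrict N1✶ N.E h
  have h2 : K4M N1 := K4M_dual N1 h1
  have h3 : K4M M1 := hK h2
  have h4 : K4M M0' := K4M_dual M0' h3
  exact K4M_restrict M₀ Set.univ h4

/-! ### Isomorphism -/

theorem K4M_iso {α : Type u} {β : Type v} (M : Matroid α) (N : Matroid β) [M.Finite] [N.Finite]
    (h : Iso M N) (hk : K4M N) : K4M M := by
  classical
  obtain ⟨e, he⟩ := h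
  obtain ⟨X', z, hc'⟩ := hk
  obtain ⟨hz, hc⟩ := Cfg.inter (rk_rankFn N) (r := rk N) (R := N.E) (fun S => by
    rw [rk_inter_ground]) hc'
  -- transport of sets
  let F : Set α → Set β := fun U => Subtype.val '' (e '' (Subtype.val ⁻¹' U))
  let G : Set β → Set α := fun U => Subtype.val '' (e.symm '' (Subtype.val ⁻¹' U))
  have hFG : ∀ U ⊆ N.E, F (G U) = U := by
    intro U hU
    ext y
    simp only [F, G, Set.mem_image, Set.mem_preimage]
    constructor
    · rintro ⟨y', ⟨x', ⟨x'', ⟨y'', hy, rfl⟩, h3⟩, rfl⟩, rfl⟩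
      have : e.symm y'' = x' := Subtype.ext h3
      rw [← this, Equiv.apply_symm_apply]
      exact hy
    · intro hy
      exact ⟨⟨y, hU hy⟩, ⟨e.symm ⟨y, hU hy⟩, ⟨e.symm ⟨y, hU hy⟩, ⟨⟨y, hU hy⟩, hy, rfl⟩, rfl⟩,
        Equiv.apply_symm_apply _ _⟩, rfl⟩
  have hGF : ∀ U ⊆ M.E, G (F U) = U := by
    intro U hU
    ext y
    simp only [F, G, Set.mem_image, Set.mem_preimage]
    constructor
    · rintro ⟨y', ⟨x', ⟨x'', ⟨y'', hy, rfl⟩, h3⟩, rfl⟩, rfl⟩
      have : e y'' = x' := Subtype.ext h3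
      rw [← this, Equiv.symm_apply_apply]
      exact hy
    · intro hy
      exact ⟨⟨y, hU hy⟩, ⟨e ⟨y, hU hy⟩, ⟨e ⟨y, hU hy⟩, ⟨⟨y, hU hy⟩, hy, rfl⟩, rfl⟩,
        Equiv.symm_apply_apply _ _⟩, rfl⟩
  have hFm : ∀ U V, U ⊆ V → F U ⊆ F V := fun U V h =>
    Set.image_mono (Set.image_mono (Set.preimage_mono h))
  have hGm : ∀ U V, U ⊆ V → G U ⊆ G V := fun U V h =>
    Set.image_mono (Set.image_mono (Set.preimage_mono h))
  have hFc : ∀ U ⊆ M.E, (F U).ncard = U.ncard := by
    intro U hU
    simp only [F]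
    rw [Set.ncard_image_of_injective _ Subtype.val_injective,
      Set.ncard_image_of_injective _ e.injective,
      ← Set.ncard_image_of_injective _ Subtype.val_injective, Subtype.image_preimage_coe,
      Set.inter_eq_self_of_subset_right hU]
  have hFi : ∀ U ⊆ M.E, (M.Indep U ↔ N.Indep (F U)) := by
    intro U hU
    have := he (Subtype.val ⁻¹' U)
    rw [Subtype.image_preimage_coe, Set.inter_eq_self_of_subset_right hU] at this
    exact this
  have hGE : ∀ U, G U ⊆ M.E := by
    rintro U _ ⟨x, _, rfl⟩; exact x.2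
  have hrk : ∀ U ⊆ N.E, rk M (G U) = rk N U := by
    intro U hU
    apply le_antisymm
    · obtain ⟨I, h1, h2, h3⟩ := (le_rk_iff M).1 (le_refl (rk M (G U)))
      rw [le_rk_iff]
      refine ⟨F I, ?_, (hFi I h2.subset_ground).1 h2, by rw [hFc I h2.subset_ground, h3]⟩
      have := hFm _ _ h1
      rwa [hFG U hU] at this
    · obtain ⟨I, h1, h2, h3⟩ := (le_rk_iff N).1 (le_refl (rk N U))
      rw [le_rk_iff]
      refine ⟨G I, hGm _ _ h1, ?_, ?_⟩
      · rw [hFi _ (hGE I), hFG I h2.subset_ground]; exact h2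
      · rw [← hFc _ (hGE I), hFG I h2.subset_ground, h3]
  have hGz : ∀ S : Set (Fin 6), G ((X' ∩ N.E) ∪ z '' S) =
      G (X' ∩ N.E) ∪ (fun i => (e.symm ⟨z i, hz i⟩ : α)) '' S := by
    intro S
    ext y
    simp only [G, Set.mem_image, Set.mem_preimage, Set.mem_union]
    constructor
    · rintro ⟨x, ⟨w, hw, rfl⟩, rfl⟩
      rcases hw with hw | ⟨i, hi, hw⟩
      · exact Or.inl ⟨_, ⟨w, hw, rfl⟩, rfl⟩
      · right
        refine ⟨i, hi, ?_⟩
        congr 2
        exact Subtype.ext hw
    · rintro (⟨x, ⟨w, hw, rfl⟩, rfl⟩ | ⟨i, hi, rfl⟩)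
      · exact ⟨_, ⟨w, Or.inl hw, rfl⟩, rfl⟩
      · exact ⟨_, ⟨⟨z i, hz i⟩, Or.inr ⟨i, hi, rfl⟩, rfl⟩, rfl⟩
  have hsub : ∀ S : Set (Fin 6), (X' ∩ N.E) ∪ z '' S ⊆ N.E := by
    rintro S y (hy | ⟨i, _, rfl⟩)
    · exact hy.2
    · exact hz i
  refine ⟨G (X' ∩ N.E), fun i => (e.symm ⟨z i, hz i⟩ : α), fun T hT => ?_, fun w => ?_⟩
  · rw [← hGz, hrk _ (hsub _), hrk _ Set.inter_subset_right]
    exact hc.tree T hT
  · rw [← hGz, hrk _ (hsub _), hrk _ Set.inter_subset_right]
    exact hc.line w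

/-! ### Minors -/

theorem K4M_minor {α : Type u} (M N : Matroid α) [M.Finite] (h : N ≤m M) (hk : K4M N) :
    K4M M := by
  obtain ⟨C, D, rfl⟩ := h
  have f1 : (M ／ C).Finite := ⟨M.ground_finite.subset Set.sdiff_subset⟩
  have f2 : (M ／ C ＼ D).Finite := ⟨M.ground_finite.subset (Set.sdiff_subset.trans Set.sdiff_subset)⟩
  have f3 : M✶.Finite := ⟨M.ground_finite⟩
  have f4 : (M✶ ＼ C).Finite := ⟨M.ground_finite.subset Set.sdiff_subset⟩
  have f5 : ((M ／ C) ↾ ((M ／ C).E \ D)).Finite := f2
  have f6 : (M✶ ↾ (M✶.E \ C)).Finite := f4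
  have h1 : K4M (M ／ C) := K4M_restrict (M ／ C) ((M ／ C).E \ D) hk
  have h2 : K4M (M✶ ＼ C) := K4M_dual _ h1
  have h3 : K4M M✶ := K4M_restrict M✶ (M✶.E \ C) h2
  exact K4M_dual _ h3

/-! ### Copies of `M(K_4)` -/

open Pool.Agent.X52.K4Graph

/-- the numbering of the edges -/
noncomputable def edEquiv : Fin 6 ≃ EdgeK4 :=
  Equiv.ofBijective (fun i => ⟨edv i, edv_notDiag i⟩)
    ⟨fun i j h => edv_inj (congrArg Subtype.val h),
     fun e => by
      obtain ⟨i, hi⟩ := edv_surj e.1 e.2
      exact ⟨i, Subtype.ext hi⟩⟩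

lemma edEquiv_val (i : Fin 6) : (edEquiv i).1 = edv i := rfl

lemma tri_card : ∀ u, (line u).card = 3 := by decide

lemma tree_no_line : ∀ T : Finset (Fin 6), IsTree T → ∀ u, ¬ line u ⊆ T := by decide +kernel

theorem IsMK4_iff {α : Type u} (M : Matroid α) :
    IsMK4 M ↔ ∃ z : Fin 6 → α, Function.Injective z ∧ Set.range z = M.E ∧
      ∀ S : Finset (Fin 6), M.Indep (z '' (S : Set (Fin 6))) ↔ (S.card ≤ 3 ∧ ∀ u, ¬ line u ⊆ S) := by
  classical
  constructor
  · rintro ⟨φ, hφ⟩
    refine ⟨fun i => (φ (edEquiv i) : α), ?_, ?_, ?_⟩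
    · intro i j h
      exact edEquiv.injective (φ.injective (Subtype.ext h))
    · ext y
      constructor
      · rintro ⟨i, rfl⟩; exact (φ (edEquiv i)).2
      · intro hy
        refine ⟨edEquiv.symm (φ.symm ⟨y, hy⟩), ?_⟩
        simp
    · intro S
      rw [← acyclic_iff, GS]
      have := hφ (edEquiv '' (S : Set (Fin 6)))
      rw [Set.image_image, Set.image_image] at this
      exact this
  · rintro ⟨z, hz, hr, hS⟩
    refine ⟨edEquiv.symm.trans ((Equiv.ofInjective z hz).trans (Equiv.setCongr hr)), ?_⟩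
    intro I
    have h1 : (fun e => ((edEquiv.symm.trans ((Equiv.ofInjective z hz).trans
        (Equiv.setCongr hr))) e : α)) = fun e => z (edEquiv.symm e) := by
      funext e; rfl
    rw [h1]
    have h2 := hS (edEquiv.symm '' I).toFinset
    rw [← acyclic_iff, GS, Set.coe_toFinset, Set.image_image, Set.image_image] at h2
    rw [h2]
    have h3 : (fun x : EdgeK4 => edv (edEquiv.symm x)) = fun e : EdgeK4 => e.1 := by
      funext e
      rw [← edEquiv_val, Equiv.apply_symm_apply]
    rw [h3]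

theorem K4M_iff {α : Type u} (M : Matroid α) [M.Finite] : K4M M ↔ ∃ N, N ≤m M ∧ IsMK4 N := by
  classical
  constructor
  · rintro ⟨X', z, hc'⟩
    have hr := rk_rankFn M
    obtain ⟨hz, hc⟩ := Cfg.inter hr (r := rk M) (R := M.E) (fun S => by
      rw [rk_inter_ground]) hc'
    set X := X' ∩ M.E with hX
    have hXE : X ⊆ M.E := Set.inter_subset_right
    have hinj := hc.inj hr
    have hnot := fun i => hc.notMem hr i
    have hQ := Cfg_iff.1 hc
    obtain ⟨t345, t123, t023, t013, t134⟩ := tree_facts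
    have hfull : Q (rk M) X z ∅ Finset.univ = Q (rk M) X z ∅ ∅ + 3 := by
      have a := full_le (X := X) (z := z) hr (hQ.1 _ t345) (hQ.2 1) (hQ.2 2) (hQ.2 3)
      have b := Q_mono (X := X) (z := z) hr (Set.Subset.refl (∅ : Set α)) (S := {3, 4, 5})
        (S' := Finset.univ) (by decide)
      have c := hQ.1 _ t345
      omega
    obtain ⟨B, hB⟩ := M.exists_isBasis X
    have hBfin : B.Finite := M.ground_finite.subset hB.indep.subset_ground
    have hrB : rk M X = B.ncard := by
      have h1 : rk M X = rk M B := by rw [rk, rk, hB.eRk_eq_eRk]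
      rw [h1]
      exact le_antisymm (rk_le_ncard M hBfin) ((indep_iff_rk M hBfin).1 hB.indep)
    have hzE : Set.range z ⊆ (M ／ X).E := by
      rintro _ ⟨i, rfl⟩
      exact ⟨hz i, hnot i⟩
    refine ⟨(M ／ X) ↾ Set.range z, ?_, ?_⟩
    · rw [← Matroid.delete_compl hzE]
      exact Matroid.contract_delete_isMinor _ _ _
    rw [IsMK4_iff]
    refine ⟨z, hinj, rfl, ?_⟩
    intro S
    rw [Matroid.restrict_indep_iff, hB.contract_indep_iff]
    have hdis : Disjoint X (z '' (S : Set (Fin 6))) := by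
      rw [Set.disjoint_left]
      rintro _ hy ⟨i, _, rfl⟩
      exact hnot i hy
    have hSfin : (z '' (S : Set (Fin 6))).Finite := (S.finite_toSet).image z
    have hcard : (z '' (S : Set (Fin 6)) ∪ B).ncard = S.card + B.ncard := by
      rw [Set.ncard_union_eq (hdis.symm.mono_right hB.subset) hSfin hBfin,
        Set.ncard_image_of_injective _ hinj, Set.ncard_coe_finset]
    have hrk2 : rk M (z '' (S : Set (Fin 6)) ∪ B) = Q (rk M) X z ∅ S := by
      rw [Q, Set.union_empty, Set.union_comm X, rk, rk]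
      rw [← M.eRk_union_closure_right_eq, hB.closure_eq_closure, M.eRk_union_closure_right_eq]
    have hQ0 : Q (rk M) X z ∅ ∅ = B.ncard := by rw [Q_empty, Set.union_empty, hrB]
    have h1 : M.Indep (z '' (S : Set (Fin 6)) ∪ B) ↔ S.card + Q (rk M) X z ∅ ∅ ≤ Q (rk M) X z ∅ S := by
      rw [indep_iff_rk M (hSfin.union hBfin), hcard, hrk2, hQ0]
    have h2 : (S.card ≤ 3 ∧ ∀ u, ¬ line u ⊆ S) ↔
        S.card + Q (rk M) X z ∅ ∅ ≤ Q (rk M) X z ∅ S := by
      constructor
      · rintro ⟨g1, g2⟩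
        obtain ⟨T, hT, hST⟩ := extend_tree S g1 g2
        have a1 := hQ.1 T hT
        have a2 := Q_card' (X := X) (z := z) hr ∅ (T \ S).card hST (le_refl _)
        have a3 : (T \ S).card + S.card = T.card := Finset.card_sdiff_add_card_eq_card hST
        have a4 := hT.1
        omega
      · intro g
        constructor
        · have := Q_mono (X := X) (z := z) hr (Set.Subset.refl (∅ : Set α)) (Finset.subset_univ S)
          omega
        · intro u hu
          have a1 := hQ.2 u
          have a2 := Q_card' (X := X) (z := z) hr ∅ (S \ line u).card hu (le_refl _)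
          have a3 : (S \ line u).card + (line u).card = S.card :=
            Finset.card_sdiff_add_card_eq_card hu
          have a4 := tri_card u
          omega
    rw [h2, h1]
    constructor
    · rintro ⟨⟨g, _⟩, _⟩; exact g
    · intro g
      exact ⟨⟨g, hdis⟩, Set.image_subset_range _ _⟩
  · rintro ⟨N, hN, hk⟩
    have fN : N.Finite := ⟨M.ground_finite.subset hN.subset⟩
    apply K4M_minor M N hN
    rw [IsMK4_iff] at hk
    obtain ⟨z, hz, _, hS⟩ := hk
    have h0 : rk N (∅ : Set α) = 0 := by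
      have := rk_le_ncard N (Set.finite_empty (α := α))
      rw [Set.ncard_empty] at this
      omega
    have hc : ∀ S : Finset (Fin 6), (z '' (S : Set (Fin 6))).ncard = S.card := by
      intro S
      rw [Set.ncard_image_of_injective _ hz, Set.ncard_coe_finset]
    have hf : ∀ S : Finset (Fin 6), (z '' (S : Set (Fin 6))).Finite := fun S =>
      (S.finite_toSet).image z
    refine ⟨∅, z, fun T hT => ?_, fun u => ?_⟩
    · rw [Set.empty_union, h0]
      have a1 := (hS T).2 ⟨by rw [hT.1], tree_no_line T hT⟩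
      rw [indep_iff_rk N (hf T), hc, hT.1] at a1
      have a2 := rk_le_ncard N (hf T)
      rw [hc, hT.1] at a2
      omega
    · rw [Set.empty_union, h0]
      by_contra hcon
      have a1 : (z '' (line u : Set (Fin 6))).ncard ≤ rk N (z '' (line u : Set (Fin 6))) := by
        rw [hc, tri_card]; omega
      rw [← indep_iff_rk N (hf _), hS] at a1
      exact a1.2 u (Finset.Subset.refl _)

theorem noMK4Minor_iff {α : Type u} (M : Matroid α) : NoMK4Minor α M ↔ M.Finite ∧ ¬ K4M M := by
  constructor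
  · rintro ⟨h1, h2⟩
    refine ⟨h1, fun h => ?_⟩
    obtain ⟨N, hN, hk⟩ := (K4M_iff M).1 h
    exact h2 N hN hk
  · rintro ⟨h1, h2⟩
    refine ⟨h1, fun N hN hk => h2 ((K4M_iff M).2 ⟨N, hN, hk⟩)⟩

/-! ### The main theorem -/

theorem isComplete : IsComplete.{u} NoMK4Minor where
  finite := fun α M h => h.1
  iso := by
    intro α β M N hM hI
    rw [noMK4Minor_iff] at hM ⊢
    obtain ⟨f1, h1⟩ := hM
    have f2 : N.Finite := by
      obtain ⟨e, _⟩ := hI
      have := M.ground_finite.to_subtype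
      have : Finite N.E := Finite.of_equiv M.E e
      exact ⟨Set.toFinite _⟩
    exact ⟨f2, fun h => h1 (K4M_iso M N hI h)⟩
  restriction := by
    intro α M R hR hM
    rw [noMK4Minor_iff] at hM ⊢
    obtain ⟨f1, h1⟩ := hM
    have f2 : (M ↾ R).Finite := ⟨M.ground_finite.subset hR⟩
    exact ⟨f2, fun h => h1 (K4M_restrict M R h)⟩
  contraction := by
    intro α M X hX hM
    rw [noMK4Minor_iff] at hM ⊢
    obtain ⟨f1, h1⟩ := hM
    have f2 : (M ／ X).Finite := ⟨M.ground_finite.subset Set.sdiff_subset⟩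
    refine ⟨f2, fun h => h1 (K4M_minor M (M ／ X) ⟨X, ∅, by simp⟩ h)⟩
  dual := by
    intro α M hM
    rw [noMK4Minor_iff] at hM ⊢
    obtain ⟨f1, h1⟩ := hM
    exact ⟨⟨M.ground_finite⟩, fun h => h1 (K4M_dual M h)⟩
  directSum := by
    intro α β M N hM hN
    rw [noMK4Minor_iff] at hM hN ⊢
    obtain ⟨f1, h1⟩ := hM
    obtain ⟨f2, h2⟩ := hN
    have f3 : (M.sum N).Finite := by
      constructor
      rw [Matroid.sum_ground]
      exact (M.ground_finite.image _).union (N.ground_finite.image _)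
    refine ⟨f3, fun h => ?_⟩
    rcases K4M_sum M N h with h | h
    · exact h1 h
    · exact h2 h
  truncation := by
    intro α M N k hM hE hI
    rw [noMK4Minor_iff] at hM ⊢
    obtain ⟨f1, h1⟩ := hM
    have f2 : N.Finite := ⟨by rw [hE]; exact M.ground_finite⟩
    exact ⟨f2, fun h => h1 (K4M_truncation M N k hI h)⟩
  induction := by
    intro T hT Γ M₀ N hM hN
    rw [noMK4Minor_iff] at hM ⊢
    obtain ⟨f1, h1⟩ := hM
    exact ⟨⟨Set.toFinite _⟩, fun h => h1 (K4M_induction Γ M₀ N hN h)⟩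

/-- The class of finite matroids with no minor isomorphic to `M(K_4)` is complete, and it is the
largest complete class containing no copy of `M(K_4)`. -/
theorem result : IsLargestCompleteAvoidingMK4.{u} NoMK4Minor := by
  refine ⟨⟨isComplete, fun α M h hk => h.2 M Matroid.IsMinor.refl hk⟩, ?_⟩
  intro C hC hno α M hM
  refine ⟨hC.finite α M hM, ?_⟩
  rintro N ⟨X, D, rfl⟩ hk
  have h1 : C α (M ／ X) := by
    rw [← Matroid.contract_inter_ground_eq]
    exact hC.contraction α M (X ∩ M.E) Set.inter_subset_right hM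
  have h2 : C α (M ／ X ＼ D) := hC.restriction α (M ／ X) ((M ／ X).E \ D) Set.sdiff_subset h1
  exact hno α _ h2 hk

end Pool.Agent.Results.MP_c5be19_co.LargestComplete
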